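import Pool.Agent.SDet.PfEnd

/-!
MP_381749_lc. Sums of products `P_i Pf (A_i)`, `P_i` of degree at most `nu < n`, `A_i` alternating
of size at most `2 m` with polynomial entries of degree at most `d`, need exponentially many terms
in order to approximate the permanent of `n x n` matrices.
-/

namespace Pool.Agent.Results.MP_381749_lc.PfaffianSums

open MvPolynomial Pool.PF

theorem result : ∃ C : ℝ, 1 ≤ C ∧
    ∀ (K : Type) [NormedField K] [CharZero K] (n m d nu T : ℕ), 1 ≤ m → 1 ≤ d → nu < n →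
    (∀ ε : ℝ, 0 < ε → ∃ (s : Fin T → ℕ) (P : Fin T → MvPolynomial (Fin n × Fin n) K)
      (A : ∀ i, Matrix (Fin (2 * s i)) (Fin (2 * s i)) (MvPolynomial (Fin n × Fin n) K)),
      (∀ i, s i ≤ m) ∧ (∀ i, (P i).totalDegree ≤ nu) ∧ (∀ i p q, (A i p q).totalDegree ≤ d) ∧
      ∀ M : Matrix (Fin n) (Fin n) ℕ, (∀ a b, M a b ≤ m * d + nu) →
        ‖(M.permanent : K) - ∑ i, eval (fun v => (M v.1 v.2 : K)) (P i) *
          pf (s i) ((A i).map (eval fun v => (M v.1 v.2 : K)))‖ < ε) →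
    ∀ η μ t : ℝ, η = 1 - (nu : ℝ) / n → μ = max 1 ((m : ℝ) * d / n) →
      t = (C * μ * (1 + Real.log (μ / η)) / η) ^ (1 / η) →
      Real.exp (n / (C * (t + d) * Real.log t)) ≤ 2 * T :=
  Pool.SDF.pf_final_of Pool.SDF.n3

end Pool.Agent.Results.MP_381749_lc.PfaffianSums
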