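import Pool.Agent.SDet.SatEnd
import Pool.Agent.Helper59.SAT.NumPf3

/-!
MP_381749_lc. For weights `w C` of the clauses with exactly `k` literals on `n` Boolean variables
let `F w` be the sum over all assignments of the product of the weights of the violated clauses.
If `w` has only the values `0` and `1`, then `F w` is the number of assignments which satisfy all
clauses of weight zero. Sums of `r` products of a polynomial and a Pfaffian which approximate `F`
need about `2 ^ n` terms.
-/

set_option autoImplicit false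

namespace Pool.Agent.Results.MP_381749_lc.SatCountingSums

open MvPolynomial Finset Pool.SatDet Pool.PF
open Classical

theorem result : ∀ ε : ℝ, 0 < ε → ∃ K₀ : ℕ, 1 ≤ K₀ ∧
    ∀ (K : Type) [NormedField K] [CharZero K] (n k m d nu r : ℕ), K₀ ≤ k → K₀ * k ≤ n →
    1 ≤ m → 1 ≤ d → (m * d : ℝ) ≤ 2 ^ (k / K₀ : ℝ) * n.choose k → n * d ≤ n.choose k →
    (∀ δ : ℝ, 0 < δ → ∃ (s : Fin r → ℕ) (P : Fin r → MvPolynomial (Clause n k) K)
      (A : ∀ i, Matrix (Fin (2 * s i)) (Fin (2 * s i)) (MvPolynomial (Clause n k) K)),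
      (∀ i, s i ≤ m) ∧ (∀ i, (P i).totalDegree ≤ nu) ∧ (∀ i p q, (A i p q).totalDegree ≤ d) ∧
      ∀ w : Clause n k → ℕ, (∀ C, w C ≤ m * d + nu) →
        ‖∑ a : Fin n → Bool, ∏ C ∈ univ.filter (fun C : Clause n k => ¬ Sats a C), (w C : K) -
          ∑ i, eval (fun C => (w C : K)) (P i) *
            pf (s i) ((A i).map (eval fun C => (w C : K)))‖ < δ) →
    (2 : ℝ) ^ ((1 - nu / n.choose k - ε) * n) ≤ r :=
  Pool.SatCount.final_of Pool.SatDet.numericsPf

end Pool.Agent.Results.MP_381749_lc.SatCountingSums
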